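import Pool.Agent.H131.T1.Poly

/-!
Self-avoiding polygons on the square lattice: power law lower bounds along windows.

For every `ε > 0` there is `K` such that for every `N ≥ 2` there is a dyadic block `[m, 2m)` with
`N ≤ m ≤ exp (K (log N)^2)` and `∑_{m ≤ k < 2m} p_{2k} μ^(-2k) ≥ m^(-3-ε)`, and in it an `n` with
`p_{2n} ≥ n^(-4-ε) μ^(2n)`.
-/

namespace Pool.Agent.Results.MP_376faf_co.PowerLawWindows

open Filter Topology

/-- the number of `n`-step self-avoiding walks on `ℤ²` started at the origin -/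
noncomputable def c (n : ℕ) : ℕ :=
  Nat.card {f : Fin (n + 1) → ℤ × ℤ // f 0 = 0 ∧ Function.Injective f ∧
    ∀ i : Fin n, |(f i.succ).1 - (f i.castSucc).1| + |(f i.succ).2 - (f i.castSucc).2| = 1}

/-- the number `p_{2n}` of self-avoiding polygons of perimeter `2n` on `ℤ²` up to translation: the
number of injective nearest-neighbour closed loops `f : ℤ/2n → ℤ²` with `f 0 = 0`, divided by `4n`
(the choices of the starting point and of the orientation) -/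
noncomputable def p (n : ℕ) : ℝ :=
  ((Nat.card {f : ZMod (2*n) → ℤ × ℤ // f 0 = 0 ∧ Function.Injective f ∧
    ∀ i : ZMod (2*n), |(f (i+1)).1 - (f i).1| + |(f (i+1)).2 - (f i).2| = 1} : ℕ) : ℝ)
    / (4 * (n:ℝ))

lemma c_eq (n : ℕ) : (c n : ℝ) = H981.cr' n := by
  rw [H981.cr'_eq]
  unfold c H981.C H981.IsSAW
  congr 1
  apply Nat.card_congr
  apply Equiv.subtypeEquivRight
  intro f
  constructor
  · rintro ⟨h0, h1, h2⟩
    exact ⟨h0, h2, h1⟩
  · rintro ⟨h0, h2, h1⟩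
    exact ⟨h0, h1, h2⟩

lemma p_eq (n : ℕ) : p n = H981.PP n := rfl

/-- **Theorem.** On `ℤ²` the connective constant `μ` exists, and for every `ε > 0` there is `K`
such that for every `N ≥ 2` there are `m ≤ n < 2m` with `N ≤ m ≤ exp (K (log N)^2)`,
`∑_{m ≤ k < 2m} p_{2k} μ^(-2k) ≥ m^(-(3+ε))` and `p_{2n} ≥ n^(-(4+ε)) μ^(2n)`. -/
theorem result : ∃ μ : ℝ, 0 < μ ∧
    Tendsto (fun n : ℕ => (c n : ℝ) ^ ((1:ℝ) / (n : ℝ))) atTop (𝓝 μ) ∧
    ∀ ε : ℝ, 0 < ε → ∃ K : ℝ, ∀ N : ℕ, 2 ≤ N → ∃ m n : ℕ, N ≤ m ∧ m ≤ n ∧ n < 2 * m ∧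
      (m : ℝ) ≤ Real.exp (K * (Real.log N) ^ 2) ∧
      (m : ℝ) ^ (-(3 + ε)) ≤ ∑ k ∈ Finset.Ico m (2 * m), p k / μ ^ (2 * k) ∧
      μ ^ (2 * n) * (n : ℝ) ^ (-(4 + ε)) ≤ p n := by
  refine ⟨H981.mu, H981.mu_pos, ?_, ?_⟩
  · simp only [c_eq]
    exact H981.tendsto_root
  · intro ε hε
    obtain ⟨K, -, h⟩ := Pool.Agent.H131.T1.blocks hε
    refine ⟨K, fun N hN => ?_⟩
    obtain ⟨m, hm, hmK, hsum⟩ := h N hN
    have hmu := H981.mu_pos
    have hm0 : (0 : ℝ) < m := by exact_mod_cast (by omega : 0 < m)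
    -- pigeonhole
    have hex : ∃ n ∈ Finset.Ico m (2 * m), (m : ℝ) ^ (-(4 + ε)) ≤ Pool.Agent.H131.T1.qn n := by
      by_contra hc
      push Not at hc
      have hne : (Finset.Ico m (2 * m)).Nonempty := ⟨m, by rw [Finset.mem_Ico]; omega⟩
      have h1 := Finset.sum_lt_sum_of_nonempty hne hc
      rw [Finset.sum_const, Nat.card_Ico, nsmul_eq_mul] at h1
      have e : 2 * m - m = m := by omega
      rw [e] at h1
      have e2 : (m : ℝ) * (m : ℝ) ^ (-(4 + ε)) = (m : ℝ) ^ (-(3 + ε)) := by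
        have : (m : ℝ) * (m : ℝ) ^ (-(4 + ε)) = (m : ℝ) ^ (1 : ℝ) * (m : ℝ) ^ (-(4 + ε)) := by
          rw [Real.rpow_one]
        rw [this, ← Real.rpow_add hm0]
        congr 1; ring
      rw [e2] at h1
      linarith
    obtain ⟨n, hn, hq⟩ := hex
    rw [Finset.mem_Ico] at hn
    refine ⟨m, n, hm, hn.1, hn.2, hmK, hsum, ?_⟩
    have hle : (n : ℝ) ^ (-(4 + ε)) ≤ (m : ℝ) ^ (-(4 + ε)) := by
      apply Real.rpow_le_rpow_of_nonpos hm0 _ (by linarith)
      exact_mod_cast hn.1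
    have h2 := hle.trans hq
    unfold Pool.Agent.H131.T1.qn at h2
    rw [le_div_iff₀ (by positivity)] at h2
    rw [p_eq, mul_comm]
    exact h2

end Pool.Agent.Results.MP_376faf_co.PowerLawWindows
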