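import Pool.Agent.H132.SQ.Fin

/-!
# Self-avoiding polygons of the square lattice under a large stretching force

The polygons of length `n` in `ℤ²` are weighted by `y ^ extent`, where the extent is the width in
the direction of the first axis. For large `y` their weighted number is asymptotic to
`C n ^ (-3/2) μ ^ n`.
-/

set_option autoImplicit false

namespace Pool.Agent.Results.MP_376faf_co.StretchedPlanarPolygons

open Filter Topology Finset
open scoped Classical

noncomputable section

/-- the four unit steps of the square lattice -/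
inductive Step
  | east | west | north | south
  deriving DecidableEq

instance : Fintype Step where
  elems := {.east, .west, .north, .south}
  complete := by intro x; cases x <;> decide

/-- the displacement of a step -/
def vec : Step → ℤ × ℤ
  | .east => (1, 0)
  | .west => (-1, 0)
  | .north => (0, 1)
  | .south => (0, -1)

/-- the end point of the walk from `0` with the steps in the list `w` (the last entry of `w` is
the first step) -/
def pos : List Step → ℤ × ℤ
  | [] => 0
  | a :: w => pos w + vec a

/-- the vertices of the walk, the last one first -/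
def path : List Step → List (ℤ × ℤ)
  | [] => [0]
  | a :: w => (pos w + vec a) :: path w

/-- the walk is closed, has at least four steps, and visits no vertex twice except for the
starting point -/
def Polygon (w : List Step) : Prop := 4 ≤ w.length ∧ pos w = 0 ∧ (path w).tail.Nodup

/-- the extent of the walk in the direction of the first axis -/
def extent (w : List Step) : ℕ :=
  ((path w).toFinset ×ˢ (path w).toFinset).sup (fun x => (x.1.1 - x.2.1).natAbs)

/-- the partition function of the self-avoiding polygons of perimeter `n`, up to translation: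
the sum of `y ^ extent`; every polygon corresponds to `2 n` words (a starting vertex and an
orientation) -/
def Z (y : ℝ) (n : ℕ) : ℝ :=
  (∑ f : Fin n → Step, if Polygon (List.ofFn f) then y ^ extent (List.ofFn f) else 0) / (2 * n)

/-! ### the words in the plane as words in space -/

def ι : Step → KN.Dir
  | .east => .xp
  | .west => .xm
  | .north => .yp
  | .south => .ym

def emb (p : ℤ × ℤ) : KN.Z3 := (p.1, p.2, 0)

theorem emb_inj : Function.Injective emb := by
  intro p q h
  simp only [emb, Prod.mk.injEq, and_true] at h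
  exact Prod.ext h.1 h.2

theorem ι_inj : Function.Injective ι := by
  intro a b h
  cases a <;> cases b <;> simp_all [ι]

theorem vec_ι (a : Step) : KN.vec (ι a) = emb (vec a) := by cases a <;> rfl

theorem emb_add (p q : ℤ × ℤ) : emb (p + q) = emb p + emb q := by simp [emb]

theorem pos_map (w : List Step) : KN.pos (w.map ι) = emb (pos w) := by
  induction w with
  | nil => rfl
  | cons a w ih => simp only [List.map_cons, KN.pos, pos, ih, vec_ι, emb_add]

theorem path_map (w : List Step) : KN.path (w.map ι) = (path w).map emb := by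
  induction w with
  | nil => rfl
  | cons a w ih => simp only [List.map_cons, KN.path, path, ih, pos_map, vec_ι, emb_add]

theorem sap_map (w : List Step) : KN.SAP (w.map ι) ↔ Polygon w := by
  unfold KN.SAP Polygon
  rw [List.length_map, pos_map, path_map, ← List.map_tail, List.nodup_map_iff emb_inj]
  have : emb (pos w) = 0 ↔ pos w = 0 := by
    constructor
    · intro h
      exact emb_inj h
    · intro h; rw [h]; rfl
  rw [this]

theorem xt_map (w : List Step) : KN.ST.xt (w.map ι) = extent w := by
  unfold KN.ST.xt extent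
  rw [path_map]
  apply le_antisymm
  · refine Finset.sup_le fun x hx => ?_
    simp only [mem_product, List.mem_toFinset, List.mem_map] at hx
    obtain ⟨⟨a, ha, h1⟩, ⟨b, hb, h2⟩⟩ := hx
    have := Finset.le_sup (f := fun x : (ℤ × ℤ) × (ℤ × ℤ) => (x.1.1 - x.2.1).natAbs)
      (s := (path w).toFinset ×ˢ (path w).toFinset) (b := (a, b)) (by simp [ha, hb])
    rw [← h1, ← h2]
    exact this
  · refine Finset.sup_le fun x hx => ?_
    simp only [mem_product, List.mem_toFinset] at hx
    exact Finset.le_sup (f := fun x : KN.Z3 × KN.Z3 => (x.1.1 - x.2.1).natAbs)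
      (s := ((path w).map emb).toFinset ×ˢ ((path w).map emb).toFinset) (b := (emb x.1, emb x.2))
      (by
        simp only [mem_product, List.mem_toFinset, List.mem_map]
        exact ⟨⟨_, hx.1, rfl⟩, ⟨_, hx.2, rfl⟩⟩)

theorem exists_map {w : List KN.Dir} (h : KN.SQ.Pl w) : ∃ v : List Step, v.map ι = w := by
  induction w with
  | nil => exact ⟨[], rfl⟩
  | cons a w ih =>
    obtain ⟨v, hv⟩ := ih (fun b hb => h b (List.mem_cons_of_mem _ hb))
    have ha := h a List.mem_cons_self
    have : ∃ b : Step, ι b = a := by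
      cases a
      · exact ⟨.east, rfl⟩
      · exact ⟨.west, rfl⟩
      · exact ⟨.north, rfl⟩
      · exact ⟨.south, rfl⟩
      · exact absurd rfl ha.1
      · exact absurd rfl ha.2
    obtain ⟨b, hb⟩ := this
    exact ⟨b :: v, by rw [List.map_cons, hb, hv]⟩

theorem pl_map (w : List Step) : KN.SQ.Pl (w.map ι) := by
  intro a ha
  rw [List.mem_map] at ha
  obtain ⟨b, -, rfl⟩ := ha
  cases b <;> simp [ι]

theorem Z_eq (y : ℝ) (n : ℕ) : Z y n = KN.SQ.Zw y n / (2 * n) := by
  unfold Z KN.SQ.Zw
  congr 1
  rw [← Finset.sum_filter]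
  refine Finset.sum_bij (fun f _ => (List.ofFn f).map ι) ?_ ?_ ?_ ?_
  · intro f hf
    rw [mem_filter] at hf ⊢
    refine ⟨KN.mem_W.2 (by simp), (sap_map _).2 hf.2, pl_map _⟩
  · intro f _ g _ h
    exact List.ofFn_injective (List.map_injective_iff.2 ι_inj h)
  · intro w hw
    rw [mem_filter, KN.mem_W] at hw
    obtain ⟨hl, hs, hp⟩ := hw
    obtain ⟨v, rfl⟩ := exists_map hp
    rw [List.length_map] at hl
    subst hl
    refine ⟨fun i => v.get i, ?_, ?_⟩
    · rw [mem_filter]
      refine ⟨mem_univ _, ?_⟩
      rw [List.ofFn_get]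
      exact (sap_map _).1 hs
    · rw [List.ofFn_get]
  · intro f hf
    rw [xt_map]

/-- For `y ≥ 10 ^ 96` there are constants `C, μ > 0` such that the partition function of the
square-lattice self-avoiding polygons of perimeter `2 n`, weighted by `y ^ extent`, is asymptotic
to `C n ^ (-3/2) μ ^ (2 n)`. -/
theorem result (y : ℝ) (hy : 10 ^ 96 ≤ y) : ∃ C μ : ℝ, 0 < C ∧ 0 < μ ∧
    Tendsto (fun n : ℕ => Z y (2 * n) * (n : ℝ) ^ (3 / 2 : ℝ) / μ ^ (2 * n)) atTop (𝓝 C) := by
  have hy0 : 0 < y := lt_of_lt_of_le (by norm_num) hy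
  set s : ℝ := y ^ (-(1 / 8) : ℝ) with hsd
  have hs0 : 0 < s := Real.rpow_pos_of_pos hy0 _
  have hs8 : y * s ^ 8 = 1 := by
    rw [hsd, ← Real.rpow_natCast, ← Real.rpow_mul hy0.le]
    norm_num
    rw [Real.rpow_neg_one, mul_inv_cancel₀ hy0.ne']
  have hs1 : s ≤ 1 / 10 ^ 12 := by
    by_contra h
    push Not at h
    have h1 : (1 / 10 ^ 12 : ℝ) ^ 8 < s ^ 8 := pow_lt_pow_left₀ h (by norm_num) (by norm_num)
    have h2 : (10 ^ 96 : ℝ) * (1 / 10 ^ 12 : ℝ) ^ 8 < y * s ^ 8 :=
      mul_lt_mul' hy h1 (by positivity) hy0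
    rw [hs8] at h2
    norm_num at h2
  have hs : KN.SQ.Wok s := ⟨hs0, hs1⟩
  have hq := (KN.SQ.MM s hs).qc_pos
  have hC := KN.SQ.C1_pos hs
  refine ⟨1 / 2 * ((KN.SQ.MM s hs).C1 (KN.SQ.CL s hs) (KN.SQ.CR s hs) * (KN.SQ.MM s hs).qc /
    (2 * √Real.pi)), (s ^ 4 * (KN.SQ.MM s hs).qc)⁻¹, by positivity, by positivity, ?_⟩
  refine (KN.SQ.Zw_asym hs hs8).congr fun n => ?_
  have e1 : (n : ℝ) ^ (3 / 2 : ℝ) = (n : ℝ) * √(n : ℝ) := by
    rcases Nat.eq_zero_or_pos n with rfl | hn
    · norm_num
    · have hn0 : (0 : ℝ) < n := by exact_mod_cast hn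
      rw [Real.sqrt_eq_rpow, show (3 / 2 : ℝ) = 1 + 1 / 2 by norm_num, Real.rpow_add hn0,
        Real.rpow_one]
  rw [e1, Z_eq, inv_pow, div_inv_eq_mul]
  ring

end

end Pool.Agent.Results.MP_376faf_co.StretchedPlanarPolygons
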